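import Mathlib

namespace Pool.Agent.Results.MP_c6e9f4_al.Superpoly

/-- `G` is `k`-permutable. -/
def Permutable (G : Type*) [Monoid G] (k : ℕ) : Prop :=
  ∀ x : Fin k → G, ∃ σ : Equiv.Perm (Fin k), σ ≠ 1 ∧
    (List.ofFn x).prod = (List.ofFn fun i => x (σ i)).prod

theorem map_ofFn_prod {G H : Type*} [Monoid G] [Monoid H] (φ : H →* G) {k : ℕ} (x : Fin k → H) :
    φ (List.ofFn x).prod = (List.ofFn fun i => φ (x i)).prod := by
  rw [map_list_prod, List.map_ofFn]; rfl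

theorem Permutable.of_inj {G H : Type*} [Monoid G] [Monoid H] (φ : H →* G)
    (hφ : Function.Injective φ) {k : ℕ} (h : Permutable G k) : Permutable H k := fun x => by
  obtain ⟨σ, h1, h2⟩ := h fun i => φ (x i)
  exact ⟨σ, h1, hφ (by rw [map_ofFn_prod, map_ofFn_prod, h2])⟩

/-- A Heisenberg-type permutation of the plane over `R`. -/
def T (R : Type*) [CommRing R] (b : R) : Equiv.Perm (R × R) where
  toFun p := (p.1 + 1, p.2 + b * p.1)
  invFun p := (p.1 - 1, p.2 - b * (p.1 - 1))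
  left_inv p := by simp
  right_inv p := by simp

theorem prod_T {R : Type*} [CommRing R] (k : ℕ) (f : Fin k → R) :
    (List.ofFn fun i => T R (f i)).prod (0, 0) =
      ((k : R), ∑ i : Fin k, f i * ((k : R) - 1 - (i : ℕ))) := by
  induction k with
  | zero => simp
  | succ k ih =>
    rw [List.ofFn_succ, List.prod_cons, Equiv.Perm.mul_apply, ih fun i => f i.succ,
      Fin.sum_univ_succ]
    apply Prod.ext
    · simp [T]
    · simp only [T, Equiv.coe_fn_mk, Fin.val_zero, Fin.val_succ]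
      push_cast
      rw [add_comm]
      congr 1
      · ring
      · exact Finset.sum_congr rfl fun i _ => by ring

theorem choose_dvd (r N : ℕ) (hr : 0 < r) (h : ∀ q, 0 < q → q ≤ 2 * r → q ∣ N) :
    (2 * r).choose r ∣ N := by
  rw [Nat.dvd_iff_prime_pow_dvd_dvd]
  intro p j hp hj
  apply h _ (pow_pos hp.pos j)
  have h0 : (2 * r).choose r ≠ 0 := (Nat.choose_pos (by omega)).ne'
  have h1 : j ≤ ((2 * r).choose r).factorization p := (hp.pow_dvd_iff_le_factorization h0).1 hj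
  exact (Nat.pow_le_pow_right hp.pos h1).trans (Nat.pow_factorization_choose_le (by omega))

theorem result (r n k : ℕ) (hr : 0 < r) (hn : 8 * r ^ 3 ≤ n) (hk : k ^ 3 ≤ 2 * (2 * r).choose r) :
    ¬ Permutable (Equiv.Perm (Fin n)) k := by
  classical
  intro h
  let β : Fin (2 * r) → Type := fun q => ZMod (q + 1) × ZMod (q + 1)
  have hcard : Fintype.card (Σ q, β q) ≤ Fintype.card (Fin n) := by
    rw [Fintype.card_sigma, Fintype.card_fin]
    calc ∑ q : Fin (2 * r), Fintype.card (β q) ≤ ∑ _q : Fin (2 * r), (2 * r) * (2 * r) := by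
          refine Finset.sum_le_sum fun q _ => ?_
          simp only [β, Fintype.card_prod, ZMod.card]
          exact Nat.mul_le_mul q.2 q.2
      _ = 8 * r ^ 3 := by simp; ring
      _ ≤ n := hn
  obtain ⟨ι⟩ := Function.Embedding.nonempty_of_card_le hcard
  have h1 := (h.of_inj _ (Equiv.Perm.viaEmbeddingHom_injective ι)).of_inj _
    (Equiv.Perm.sigmaCongrRightHom_injective (β := β))
  obtain ⟨σ, hσ, h2⟩ := h1 fun i q => T (ZMod (q + 1)) ((i : ℕ) : ZMod (q + 1))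
  let E : ℤ := ∑ i : Fin k, ((σ i : ℕ) : ℤ) * ((k : ℤ) - 1 - (i : ℕ)) -
    ∑ i : Fin k, ((i : ℕ) : ℤ) * ((k : ℤ) - 1 - (i : ℕ))
  have hdvd : ∀ q, 0 < q → q ≤ 2 * r → q ∣ E.natAbs := by
    intro q hq hq'
    obtain ⟨q, rfl⟩ : ∃ q', q = q' + 1 := ⟨q - 1, by omega⟩
    have h3 := congrArg (Pi.evalMonoidHom (fun q => Equiv.Perm (β q)) ⟨q, hq'⟩) h2
    rw [map_ofFn_prod, map_ofFn_prod] at h3
    have h4 := congrArg (fun e : Equiv.Perm (ZMod (q + 1) × ZMod (q + 1)) => (e (0, 0)).2) h3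
    have h5 := prod_T k fun i : Fin k => ((i : ℕ) : ZMod (q + 1))
    have h6 := prod_T k fun i : Fin k => ((σ i : ℕ) : ZMod (q + 1))
    have h7 : (∑ i : Fin k, ((i : ℕ) : ZMod (q + 1)) * ((k : ZMod (q + 1)) - 1 - (i : ℕ))) =
        ∑ i : Fin k, ((σ i : ℕ) : ZMod (q + 1)) * ((k : ZMod (q + 1)) - 1 - (i : ℕ)) :=
      ((congrArg Prod.snd h5).symm.trans h4).trans (congrArg Prod.snd h6)
    rw [← Int.natCast_dvd, ← ZMod.intCast_zmod_eq_zero_iff_dvd]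
    simp only [E]
    push_cast
    rw [h7, sub_self]
  have e1 : ∑ i : Fin k, ((σ i : ℕ) : ℤ) = ∑ i : Fin k, ((i : ℕ) : ℤ) :=
    Equiv.sum_comp σ fun i => ((i : ℕ) : ℤ)
  have e2 : ∑ i : Fin k, ((σ i : ℕ) : ℤ) ^ 2 = ∑ i : Fin k, ((i : ℕ) : ℤ) ^ 2 :=
    Equiv.sum_comp σ fun i => ((i : ℕ) : ℤ) ^ 2
  have e3 : 2 * E = ∑ i : Fin k, (((i : ℕ) : ℤ) - (σ i : ℕ)) ^ 2 := by
    have a1 : ∑ i : Fin k, (((i : ℕ) : ℤ) - (σ i : ℕ)) ^ 2 =
        ∑ i : Fin k, ((i : ℕ) : ℤ) ^ 2 + ∑ i : Fin k, ((σ i : ℕ) : ℤ) ^ 2 -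
          2 * ∑ i : Fin k, ((σ i : ℕ) : ℤ) * (i : ℕ) := by
      rw [Finset.mul_sum, ← Finset.sum_add_distrib, ← Finset.sum_sub_distrib]
      exact Finset.sum_congr rfl fun i _ => by ring
    have a2 : ∑ i : Fin k, ((σ i : ℕ) : ℤ) * ((k : ℤ) - 1 - (i : ℕ)) =
        ((k : ℤ) - 1) * ∑ i : Fin k, ((σ i : ℕ) : ℤ) - ∑ i : Fin k, ((σ i : ℕ) : ℤ) * (i : ℕ) := by
      rw [Finset.mul_sum, ← Finset.sum_sub_distrib]
      exact Finset.sum_congr rfl fun i _ => by ring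
    have a3 : ∑ i : Fin k, ((i : ℕ) : ℤ) * ((k : ℤ) - 1 - (i : ℕ)) =
        ((k : ℤ) - 1) * ∑ i : Fin k, ((i : ℕ) : ℤ) - ∑ i : Fin k, ((i : ℕ) : ℤ) ^ 2 := by
      rw [Finset.mul_sum, ← Finset.sum_sub_distrib]
      exact Finset.sum_congr rfl fun i _ => by ring
    simp only [E]
    rw [a1, a2, a3, e1, e2]
    ring
  obtain ⟨i0, hi0⟩ : ∃ i, σ i ≠ i := by
    by_contra hc
    push Not at hc
    exact hσ (Equiv.ext hc)
  have hpos : 0 < ∑ i : Fin k, (((i : ℕ) : ℤ) - (σ i : ℕ)) ^ 2 := by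
    refine Finset.sum_pos' (fun i _ => sq_nonneg _) ⟨i0, Finset.mem_univ _, ?_⟩
    have : ((i0 : ℕ) : ℤ) - (σ i0 : ℕ) ≠ 0 := by
      intro h0
      exact hi0 (Fin.ext (by omega))
    positivity
  have hlt : ∑ i : Fin k, (((i : ℕ) : ℤ) - (σ i : ℕ)) ^ 2 < ∑ _i : Fin k, (k : ℤ) ^ 2 := by
    refine Finset.sum_lt_sum_of_nonempty ⟨i0, Finset.mem_univ _⟩ fun i _ => ?_
    have := i.2
    have := (σ i).2
    exact sq_lt_sq' (by omega) (by omega)
  simp only [Finset.sum_const, Finset.card_univ, Fintype.card_fin, nsmul_eq_mul] at hlt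
  have hle := Nat.le_of_dvd (Int.natAbs_pos.2 (by omega)) (choose_dvd r _ hr hdvd)
  have hk' : (k : ℤ) ^ 3 ≤ 2 * ((2 * r).choose r : ℕ) := by exact_mod_cast hk
  have : (k : ℤ) * (k : ℤ) ^ 2 = (k : ℤ) ^ 3 := by ring
  omega

end Pool.Agent.Results.MP_c6e9f4_al.Superpoly
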